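import Pool.Agent.Y922.NV.Stm

set_option autoImplicit false

/-! Poles become dense (job NV-DENSE, project of helper922; proof by helper43). -/

namespace Pool.Agent.Y43.NV.Dense

open Pool.Agent.Y922.NV
open scoped Real

lemma card_low (j : ℕ) (a b : ℝ) (ha : -1 ≤ a) (hb : b ≤ 1) :
    ((j : ℝ) + 1) * (b - a) - 1 ≤
      (((Finset.Icc (-((j : ℤ) + 1)) ((j : ℤ) + 1)).filter
        (fun k : ℤ => a < (k : ℝ) / (j + 1) ∧ (k : ℝ) / (j + 1) < b)).card : ℝ) := by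
  have hpos : (0 : ℝ) < (j : ℝ) + 1 := by positivity
  have hsub : Finset.Icc (⌊a * ((j : ℝ) + 1)⌋ + 1) (⌈b * ((j : ℝ) + 1)⌉ - 1) ⊆
      (Finset.Icc (-((j : ℤ) + 1)) ((j : ℤ) + 1)).filter
        (fun k : ℤ => a < (k : ℝ) / (j + 1) ∧ (k : ℝ) / (j + 1) < b) := by
    intro k hk
    rw [Finset.mem_Icc] at hk
    have h1 : a * ((j : ℝ) + 1) < k := by
      have := Int.lt_floor_add_one (a * ((j : ℝ) + 1))
      have h2 : ((⌊a * ((j : ℝ) + 1)⌋ + 1 : ℤ) : ℝ) ≤ (k : ℝ) := by exact_mod_cast hk.1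
      push_cast at h2
      linarith
    have h3 : (k : ℝ) < b * ((j : ℝ) + 1) := by
      have := Int.ceil_lt_add_one (b * ((j : ℝ) + 1))
      have h2 : (k : ℝ) ≤ ((⌈b * ((j : ℝ) + 1)⌉ - 1 : ℤ) : ℝ) := by exact_mod_cast hk.2
      push_cast at h2
      linarith
    rw [Finset.mem_filter, Finset.mem_Icc]
    refine ⟨⟨?_, ?_⟩, ?_, ?_⟩
    · have h4 : ((-((j : ℤ) + 1) : ℤ) : ℝ) < (k : ℝ) := by
        push_cast
        nlinarith
      exact_mod_cast h4.le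
    · have h4 : (k : ℝ) < (((j : ℤ) + 1 : ℤ) : ℝ) := by
        push_cast
        nlinarith
      exact_mod_cast h4.le
    · rw [lt_div_iff₀ hpos]
      exact h1
    · rw [div_lt_iff₀ hpos]
      exact h3
  have hcard := Finset.card_le_card hsub
  rw [Int.card_Icc] at hcard
  have h5 : ((⌈b * ((j : ℝ) + 1)⌉ - 1 + 1 - (⌊a * ((j : ℝ) + 1)⌋ + 1) : ℤ) : ℝ) ≤
      (((Finset.Icc (-((j : ℤ) + 1)) ((j : ℤ) + 1)).filter
        (fun k : ℤ => a < (k : ℝ) / (j + 1) ∧ (k : ℝ) / (j + 1) < b)).card : ℝ) := by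
    have h6 := Int.self_le_toNat (⌈b * ((j : ℝ) + 1)⌉ - 1 + 1 - (⌊a * ((j : ℝ) + 1)⌋ + 1))
    have h7 : (⌈b * ((j : ℝ) + 1)⌉ - 1 + 1 - (⌊a * ((j : ℝ) + 1)⌋ + 1) : ℤ) ≤
      ((((Finset.Icc (-((j : ℤ) + 1)) ((j : ℤ) + 1)).filter
        (fun k : ℤ => a < (k : ℝ) / (j + 1) ∧ (k : ℝ) / (j + 1) < b)).card : ℕ) : ℤ) :=
      h6.trans (by exact_mod_cast hcard)
    exact_mod_cast h7
  push_cast at h5
  have h8 := Int.le_ceil (b * ((j : ℝ) + 1))
  have h9 := Int.floor_le (a * ((j : ℝ) + 1))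
  linarith

theorem t_DENSE : S_DENSE := by
  intro hP hG hPt J hJ hJn K
  obtain ⟨x, hx⟩ := hJn
  obtain ⟨ε, hε, hball⟩ := Metric.isOpen_iff.1 isOpen_interior x hx
  have hin : ∀ y, |y - x| < ε → y ∈ J := by
    intro y hy
    exact interior_subset (hball (by rw [Metric.mem_ball, Real.dist_eq]; exact hy))
  obtain ⟨a, ha⟩ : ∃ a, a = x - ε / 2 := ⟨_, rfl⟩
  obtain ⟨b, hb⟩ : ∃ b, b = x + ε / 2 := ⟨_, rfl⟩
  have haJ : a ∈ J := hin a (by rw [ha, show x - ε / 2 - x = -(ε / 2) by ring, abs_neg,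
    abs_of_pos (by positivity)]; linarith)
  have hbJ : b ∈ J := hin b (by rw [hb, show x + ε / 2 - x = ε / 2 by ring,
    abs_of_pos (by positivity)]; linarith)
  have ha1 : -1 ≤ a := (hJ haJ).1.le
  have hb1 : b ≤ 1 := (hJ hbJ).2.le
  have hab : a < b := by rw [ha, hb]; linarith
  have hsub : ∀ y, a < y → y < b → y ∈ J := by
    intro y h1 h2
    apply hin
    rw [abs_lt]
    constructor <;> linarith
  obtain ⟨N, hN⟩ := exists_nat_ge (((K : ℝ) + 5) / (b - a))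
  rw [Filter.eventually_atTop]
  refine ⟨N, fun j hj => ?_⟩
  obtain ⟨hne, hpos, -, hth⟩ := hPt j
  refine hP (ℤ ⊕ ℕ) (idx j) (pt j) hne hpos _ a b K hab (fun y h1 h2 => ⟨y, hsub y h1 h2, rfl⟩) ?_
  rw [hth]
  have hg := hG j a b ha1 hab hb1
  have hl : 0 ≤ ∑ n ∈ Finset.range j.unpair.1, (2 * Real.arctan ((b - cen j) / (1 / 2) ^ (n + 1)) -
      2 * Real.arctan ((a - cen j) / (1 / 2) ^ (n + 1))) := by
    apply Finset.sum_nonneg
    intro n _
    have h1 : (a - cen j) / (1 / 2 : ℝ) ^ (n + 1) ≤ (b - cen j) / (1 / 2) ^ (n + 1) := by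
      gcongr
    have := Real.arctan_strictMono.monotone h1
    linarith
  have hc := card_low j a b ha1 hb1
  set E : ℝ := (((Finset.Icc (-((j : ℤ) + 1)) ((j : ℤ) + 1)).filter
        (fun k : ℤ => a < (k : ℝ) / (j + 1) ∧ (k : ℝ) / (j + 1) < b)).card : ℝ) with hE
  have hbig : (K : ℝ) + 5 ≤ ((j : ℝ) + 1) * (b - a) := by
    have h1 : (K : ℝ) + 5 ≤ N * (b - a) := by
      rwa [div_le_iff₀ (by linarith)] at hN
    have h2 : (N : ℝ) ≤ j := by exact_mod_cast hj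
    have h3 : (N : ℝ) * (b - a) ≤ ((j : ℝ) + 1) * (b - a) := by
      apply mul_le_mul_of_nonneg_right _ (by linarith)
      linarith
    linarith
  have h4 : (K : ℝ) + 4 ≤ E := by linarith
  have h5 : 2 * π * ((K : ℝ) + 2) ≤ 2 * π * (E - 2) :=
    mul_le_mul_of_nonneg_left (by linarith) (by positivity)
  have h6 := Real.pi_gt_three
  linarith

end Pool.Agent.Y43.NV.Dense
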